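import Mathlib

/-!
# Positivity of convolution sums of generalized Bernoulli polynomials (MP_6eafb7_an, Q1)

The generalized Bernoulli polynomial `B_n^{(n)}` is the integral
`B_n^{(n)}(x) = ∫_x^{x+1} (t-1)(t-2)⋯(t-n) dt`; its values at `0, 1, …, n` alternate in sign, so all
its zeros are real.  The sums `α_{n,k}(x)` and `β_{n,k}(x)` are the coefficients of
`|B_n^{(n)}(x + i y)|^2 = ∏ ((x - r_i)^2 + y^2)` and hence nonnegative.
-/

set_option autoImplicit false

open Finset

namespace Pool.Agent.Results.MP_6eafb7_an.ConvolutionSums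

noncomputable section

/-- The formal power series `(e^t - 1)/t = ∑_k t^k/(k+1)!`. -/
def expSubOneDiv : PowerSeries ℝ := PowerSeries.mk fun k => 1 / ((k + 1).factorial : ℝ)

/-- The formal power series `e^{xt} = ∑_k x^k t^k/k!`. -/
def expSeries (x : ℝ) : PowerSeries ℝ := PowerSeries.mk fun k => x ^ k / (k.factorial : ℝ)

/-- The generating function `(t/(e^t-1))^a e^{xt}` of the generalized Bernoulli polynomials of
order `a`. -/
def genSeries (a : ℕ) (x : ℝ) : PowerSeries ℝ := (expSubOneDiv⁻¹) ^ a * expSeries x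

/-- The generalized Bernoulli polynomial `B_m^{(a)}(x)`: the coefficient of `t^m/m!` in
`(t/(e^t-1))^a e^{xt}`. -/
def B (a m : ℕ) (x : ℝ) : ℝ := (m.factorial : ℝ) * PowerSeries.coeff m (genSeries a x)

/-- `α_{n,k}(x) = (-1)^k ∑_{j=0}^{2k} (-1)^j C(n,j) C(n,2k-j) B_{n-j}^{(n)}(x) B_{n-2k+j}^{(n)}(x)`. -/
def alpha (n k : ℕ) (x : ℝ) : ℝ :=
  (-1) ^ k * ∑ j ∈ range (2 * k + 1),
    (-1) ^ j * (n.choose j : ℝ) * (n.choose (2 * k - j) : ℝ) * B n (n - j) x * B n (n - 2 * k + j) x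

/-- `β_{n,k}(x) = (-1)^k ∑_{j=0}^{2k} (-1)^j C(n,j) C(n,2k-j) B_j^{(n)}(x) B_{2k-j}^{(n)}(x)`. -/
def beta (n k : ℕ) (x : ℝ) : ℝ :=
  (-1) ^ k * ∑ j ∈ range (2 * k + 1),
    (-1) ^ j * (n.choose j : ℝ) * (n.choose (2 * k - j) : ℝ) * B n j x * B n (2 * k - j) x

/-! ## Formal power series -/

theorem const_E : PowerSeries.constantCoeff expSubOneDiv = (1 : ℝ) := by
  rw [← PowerSeries.coeff_zero_eq_constantCoeff_apply, expSubOneDiv, PowerSeries.coeff_mk]
  simp

theorem E_mul_inv : expSubOneDiv * expSubOneDiv⁻¹ = 1 :=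
  PowerSeries.mul_inv_cancel _ (by rw [const_E]; exact one_ne_zero)

theorem exp_one : expSeries 1 = 1 + PowerSeries.X * expSubOneDiv := by
  ext k
  cases k with
  | zero =>
    simp [expSeries]
  | succ k =>
    rw [map_add, PowerSeries.coeff_succ_X_mul]
    simp [expSeries, expSubOneDiv, PowerSeries.coeff_one]

/-- The defining property of the generating function: `(e^t - 1)^a * G = t^a e^{xt}`. -/
theorem genSeries_spec (a : ℕ) (x : ℝ) :
    (expSeries 1 - 1) ^ a * genSeries a x = PowerSeries.X ^ a * expSeries x := by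
  rw [exp_one, add_sub_cancel_left, genSeries, mul_pow]
  calc PowerSeries.X ^ a * expSubOneDiv ^ a * (expSubOneDiv⁻¹ ^ a * expSeries x)
      = PowerSeries.X ^ a * (expSubOneDiv * expSubOneDiv⁻¹) ^ a * expSeries x := by
        rw [mul_pow]; ring
    _ = PowerSeries.X ^ a * expSeries x := by rw [E_mul_inv, one_pow, mul_one]

theorem E_mul_gen (a : ℕ) (x : ℝ) : expSubOneDiv * genSeries (a + 1) x = genSeries a x := by
  rw [genSeries, genSeries, pow_succ]
  calc expSubOneDiv * (expSubOneDiv⁻¹ ^ a * expSubOneDiv⁻¹ * expSeries x)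
      = (expSubOneDiv * expSubOneDiv⁻¹) * (expSubOneDiv⁻¹ ^ a * expSeries x) := by ring
    _ = _ := by rw [E_mul_inv, one_mul]

theorem exp_add (x y : ℝ) : expSeries (x + y) = expSeries x * expSeries y := by
  ext m
  rw [PowerSeries.coeff_mul]
  simp only [expSeries, PowerSeries.coeff_mk]
  rw [Finset.Nat.sum_antidiagonal_eq_sum_range_succ (fun i j => x ^ i / (i.factorial : ℝ) *
    (y ^ j / (j.factorial : ℝ)))]
  rw [add_pow, Finset.sum_div]
  refine Finset.sum_congr rfl fun i hi => ?_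
  have hi' : i ≤ m := Nat.lt_succ_iff.mp (Finset.mem_range.mp hi)
  rw [Nat.cast_choose ℝ hi']
  field_simp

theorem B_add (a m : ℕ) (x y : ℝ) :
    B a m (x + y) = ∑ r ∈ range (m + 1), (m.choose r : ℝ) * y ^ r * B a (m - r) x := by
  rw [B, genSeries, exp_add, ← mul_assoc, ← genSeries, mul_comm (genSeries a x),
    PowerSeries.coeff_mul]
  rw [Finset.Nat.sum_antidiagonal_eq_sum_range_succ (fun i j => PowerSeries.coeff i (expSeries y) *
    PowerSeries.coeff j (genSeries a x)), Finset.mul_sum]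
  refine Finset.sum_congr rfl fun i hi => ?_
  have hi' : i ≤ m := Nat.lt_succ_iff.mp (Finset.mem_range.mp hi)
  rw [Nat.cast_choose ℝ hi', B, expSeries, PowerSeries.coeff_mk]
  field_simp

theorem B_zero (a : ℕ) (x : ℝ) : B a 0 x = 1 := by
  rw [B, PowerSeries.coeff_zero_eq_constantCoeff_apply, genSeries, map_mul, map_pow,
    PowerSeries.constantCoeff_inv, const_E]
  simp [expSeries]

/-- `t E' = t E + 1 - E` for `E = (e^t-1)/t`. -/
theorem X_mul_deriv_E : PowerSeries.X * PowerSeries.derivative ℝ expSubOneDiv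
    = PowerSeries.X * expSubOneDiv + 1 - expSubOneDiv := by
  ext k
  cases k with
  | zero =>
    simp [expSubOneDiv]
  | succ k =>
    rw [map_sub, map_add, PowerSeries.coeff_succ_X_mul, PowerSeries.coeff_succ_X_mul]
    simp [expSubOneDiv, PowerSeries.coeff_one, PowerSeries.coeff_derivative]
    rw [Nat.factorial_succ (k + 1)]
    push_cast
    have : ((k + 1).factorial : ℝ) ≠ 0 := by positivity
    field_simp
    ring

theorem deriv_exp (x : ℝ) : PowerSeries.derivative ℝ (expSeries x) = PowerSeries.C x * expSeries x := by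
  ext k
  rw [PowerSeries.coeff_derivative, PowerSeries.coeff_C_mul, expSeries, PowerSeries.coeff_mk,
    PowerSeries.coeff_mk, Nat.factorial_succ]
  push_cast
  have : ((k).factorial : ℝ) ≠ 0 := by positivity
  field_simp
  ring

/-- `t E (E⁻¹)' = -(E⁻¹) (t E + 1 - E)`, in the form used below. -/
theorem X_mul_deriv_inv : PowerSeries.X * PowerSeries.derivative ℝ expSubOneDiv⁻¹
    = expSubOneDiv⁻¹ - PowerSeries.X * expSubOneDiv⁻¹ - expSubOneDiv⁻¹ * expSubOneDiv⁻¹ := by
  have h1 : PowerSeries.derivative ℝ (expSubOneDiv * expSubOneDiv⁻¹) = 0 := by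
    rw [E_mul_inv]
    simp
  rw [Derivation.leibniz, smul_eq_mul, smul_eq_mul] at h1
  have h2 := X_mul_deriv_E
  have h3 := E_mul_inv
  have h4 : expSubOneDiv⁻¹ * (PowerSeries.X * (expSubOneDiv * PowerSeries.derivative ℝ expSubOneDiv⁻¹ +
      expSubOneDiv⁻¹ * PowerSeries.derivative ℝ expSubOneDiv)) = 0 := by
    rw [h1, mul_zero, mul_zero]
  linear_combination h4 - expSubOneDiv⁻¹ * expSubOneDiv⁻¹ * h2 +
    (-PowerSeries.X * PowerSeries.derivative ℝ expSubOneDiv⁻¹ - PowerSeries.X * expSubOneDiv⁻¹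
      + expSubOneDiv⁻¹) * h3

/-- `a G_{a+1} = a G_a - t G_a' + (x - a) t G_a`. -/
theorem gen_rec (a : ℕ) (x : ℝ) :
    (a : PowerSeries ℝ) * genSeries (a + 1) x = (a : PowerSeries ℝ) * genSeries a x -
      PowerSeries.X * PowerSeries.derivative ℝ (genSeries a x) +
      (PowerSeries.C x - (a : PowerSeries ℝ)) * (PowerSeries.X * genSeries a x) := by
  have h2 := X_mul_deriv_inv
  rw [genSeries, genSeries, Derivation.leibniz, smul_eq_mul, smul_eq_mul, Derivation.leibniz_pow,
    deriv_exp]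
  cases a with
  | zero =>
    simp
    ring
  | succ a =>
    simp only [Nat.add_sub_cancel, nsmul_eq_mul, smul_eq_mul]
    rw [pow_succ, pow_succ]
    linear_combination (-(((a + 1 : ℕ) : PowerSeries ℝ)) * expSubOneDiv⁻¹ ^ a * expSeries x) * (-h2)

/-- `a B_{m+1}^{(a+1)} = (a - m - 1) B_{m+1}^{(a)} + (x - a) (m+1) B_m^{(a)}`. -/
theorem B_rec (a m : ℕ) (x : ℝ) :
    (a : ℝ) * B (a + 1) (m + 1) x =
      ((a : ℝ) - (m + 1)) * B a (m + 1) x + (x - a) * ((m + 1) * B a m x) := by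
  have h := congrArg (PowerSeries.coeff (m + 1)) (gen_rec a x)
  have hC : ∀ (F : PowerSeries ℝ), ((a : ℕ) : PowerSeries ℝ) * F = PowerSeries.C (a : ℝ) * F := by
    intro F
    simp
  have hC' : (PowerSeries.C x - ((a : ℕ) : PowerSeries ℝ)) = PowerSeries.C (x - (a : ℝ)) := by
    simp
  rw [hC', hC, hC] at h
  rw [map_add, map_sub, PowerSeries.coeff_C_mul, PowerSeries.coeff_C_mul,
    PowerSeries.coeff_C_mul, PowerSeries.coeff_succ_X_mul, PowerSeries.coeff_succ_X_mul,
    PowerSeries.coeff_derivative] at h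
  rw [B, B, B, Nat.factorial_succ]
  push_cast
  linear_combination ((m : ℝ) + 1) * (m.factorial : ℝ) * h

/-- `B_n^{(n+1)}(x) = (x - 1)(x - 2)⋯(x - n)`. -/
theorem B_succ_self (n : ℕ) (x : ℝ) :
    B (n + 1) n x = ∏ i ∈ range n, (x - ((i : ℝ) + 1)) := by
  induction n with
  | zero => rw [B_zero]; simp
  | succ n ih =>
    have h := B_rec (n + 1) n x
    rw [Finset.prod_range_succ, ← ih]
    have h0 : ((n : ℝ) + 1) ≠ 0 := by positivity
    push_cast at h
    have h1 : ((n : ℝ) + 1) * (B (n + 1 + 1) (n + 1) x - B (n + 1) n x * (x - ((n : ℝ) + 1))) = 0 := by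
      linear_combination h
    have h2 := (mul_eq_zero.mp h1).resolve_left h0
    linarith

/-- `B_m^{(a)}(x) = ∫_0^1 B_m^{(a+1)}(x+s) ds`. -/
theorem B_eq_integral (a m : ℕ) (x : ℝ) :
    B a m x = ∫ s in (0 : ℝ)..1, B (a + 1) m (x + s) := by
  simp_rw [B_add]
  rw [intervalIntegral.integral_finsetSum]
  swap
  · intro i _
    apply Continuous.intervalIntegrable
    fun_prop
  have h1 : ∀ r : ℕ, (∫ s in (0 : ℝ)..1, (m.choose r : ℝ) * s ^ r * B (a + 1) (m - r) x)
      = (m.choose r : ℝ) / ((r : ℝ) + 1) * B (a + 1) (m - r) x := by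
    intro r
    rw [intervalIntegral.integral_mul_const, intervalIntegral.integral_const_mul, integral_pow]
    congr 1
    simp
    ring
  simp_rw [h1]
  rw [B, ← E_mul_gen, PowerSeries.coeff_mul,
    Finset.Nat.sum_antidiagonal_eq_sum_range_succ (fun i j => PowerSeries.coeff i expSubOneDiv *
    PowerSeries.coeff j (genSeries (a + 1) x)), Finset.mul_sum]
  refine Finset.sum_congr rfl fun i hi => ?_
  have hi' : i ≤ m := Nat.lt_succ_iff.mp (Finset.mem_range.mp hi)
  rw [Nat.cast_choose ℝ hi', B, expSubOneDiv, PowerSeries.coeff_mk, Nat.factorial_succ]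
  push_cast
  field_simp

/-- `B_n^{(n)}(x) = ∫_0^1 (x+s-1)(x+s-2)⋯(x+s-n) ds`. -/
theorem B_self (n : ℕ) (x : ℝ) :
    B n n x = ∫ s in (0 : ℝ)..1, ∏ i ∈ range n, (x + s - ((i : ℝ) + 1)) := by
  rw [B_eq_integral]
  simp_rw [B_succ_self]

/-- The values at `0, 1, …, n` alternate in sign. -/
theorem B_sign (n j : ℕ) (hj : j ≤ n) : 0 < (-1 : ℝ) ^ (n - j) * B n n j := by
  rw [B_self, ← intervalIntegral.integral_const_mul]
  have hcont : Continuous fun s : ℝ => (-1 : ℝ) ^ (n - j) * ∏ i ∈ range n, ((j : ℝ) + s - ((i : ℝ) + 1)) := by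
    fun_prop
  apply intervalIntegral.intervalIntegral_pos_of_pos_on (hcont.intervalIntegrable _ _) _ one_pos
  intro s hs
  rw [← Finset.prod_range_mul_prod_Ico _ hj]
  have h1 : 0 < ∏ i ∈ range j, ((j : ℝ) + s - ((i : ℝ) + 1)) := by
    refine Finset.prod_pos fun i hi => ?_
    have : (i : ℝ) + 1 ≤ j := by exact_mod_cast Finset.mem_range.mp hi
    linarith [hs.1]
  have h2 : ∏ i ∈ Ico j n, ((j : ℝ) + s - ((i : ℝ) + 1)) =
      (-1) ^ (n - j) * ∏ i ∈ Ico j n, (((i : ℝ) + 1) - ((j : ℝ) + s)) := by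
    rw [← Nat.card_Ico, ← Finset.prod_neg]
    refine Finset.prod_congr rfl fun i _ => ?_
    ring
  have h3 : 0 < ∏ i ∈ Ico j n, (((i : ℝ) + 1) - ((j : ℝ) + s)) := by
    refine Finset.prod_pos fun i hi => ?_
    have : (j : ℝ) ≤ i := by exact_mod_cast (Finset.mem_Ico.mp hi).1
    linarith [hs.2]
  rw [h2]
  have h4 : ((-1 : ℝ) ^ (n - j)) * (-1) ^ (n - j) = 1 := by
    rw [← mul_pow]; simp
  calc (0 : ℝ) < (∏ i ∈ range j, ((j : ℝ) + s - ((i : ℝ) + 1))) *
        ∏ i ∈ Ico j n, (((i : ℝ) + 1) - ((j : ℝ) + s)) := mul_pos h1 h3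
    _ = _ := by linear_combination (-(∏ i ∈ range j, ((j : ℝ) + s - ((i : ℝ) + 1))) *
        ∏ i ∈ Ico j n, (((i : ℝ) + 1) - ((j : ℝ) + s))) * h4

theorem B_continuous (a m : ℕ) : Continuous (B a m) := by
  have : B a m = fun y => ∑ r ∈ range (m + 1), (m.choose r : ℝ) * y ^ r * B a (m - r) 0 := by
    funext y
    rw [← B_add, zero_add]
  rw [this]
  fun_prop

/-- There is a zero in each interval `(j, j+1)`, `0 ≤ j < n`. -/
theorem exists_zero (n : ℕ) (j : Fin n) :
    ∃ r : ℝ, (j : ℝ) < r ∧ r < (j : ℝ) + 1 ∧ B n n r = 0 := by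
  have hj := j.2
  have h1 := B_sign n j hj.le
  have h2 := B_sign n (j + 1) hj
  have hc : ContinuousOn (fun y => (-1 : ℝ) ^ (n - (j + 1)) * B n n y) (Set.Icc (j : ℝ) ((j : ℝ) + 1)) :=
    (continuous_const.mul (B_continuous n n)).continuousOn
  have hpow : (-1 : ℝ) ^ (n - (j : ℕ)) = - (-1) ^ (n - (j + 1)) := by
    have : n - (j : ℕ) = (n - (j + 1)) + 1 := by omega
    rw [this, pow_succ]
    ring
  rw [hpow] at h1
  push_cast at h2
  have h3 := intermediate_value_Ioo (by linarith : (j : ℝ) ≤ (j : ℝ) + 1) hc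
  have h4 : (0 : ℝ) ∈ Set.Ioo ((-1 : ℝ) ^ (n - ((j : ℕ) + 1)) * B n n j)
      ((-1 : ℝ) ^ (n - ((j : ℕ) + 1)) * B n n ((j : ℝ) + 1)) := by
    constructor
    · linarith
    · exact h2
  obtain ⟨r, hr, hr0⟩ := h3 h4
  refine ⟨r, hr.1, hr.2, ?_⟩
  have : (-1 : ℝ) ^ (n - ((j : ℕ) + 1)) ≠ 0 := pow_ne_zero _ (by norm_num)
  exact (mul_eq_zero.mp hr0).resolve_left this

/-! ## Polynomials -/

open Polynomial in
/-- The polynomial `∑_j C(n,j) B_{n-j}(x) Z^j`, i.e. `B_n^{(n)}(x+Z)`. -/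
def P (n : ℕ) (x : ℝ) : ℝ[X] :=
  ∑ j ∈ range (n + 1), Polynomial.C ((n.choose j : ℝ) * B n (n - j) x) * Polynomial.X ^ j

theorem P_eval (n : ℕ) (x z : ℝ) : (P n x).eval z = B n n (x + z) := by
  rw [P, Polynomial.eval_finsetSum, B_add]
  refine Finset.sum_congr rfl fun j _ => ?_
  simp
  ring

theorem P_coeff (n j : ℕ) (x : ℝ) : (P n x).coeff j = (n.choose j : ℝ) * B n (n - j) x := by
  rw [P, Polynomial.finsetSum_coeff]
  simp only [Polynomial.coeff_C_mul_X_pow]
  rw [Finset.sum_ite_eq]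
  split_ifs with h
  · rfl
  · have : n < j := by
      by_contra hcon
      exact h (Finset.mem_range.mpr (by omega))
    rw [Nat.choose_eq_zero_of_lt this]
    simp

theorem P_natDegree_le (n : ℕ) (x : ℝ) : (P n x).natDegree ≤ n := by
  rw [Polynomial.natDegree_le_iff_coeff_eq_zero]
  intro N hN
  rw [P_coeff, Nat.choose_eq_zero_of_lt hN]
  simp

theorem P_monic (n : ℕ) (x : ℝ) : (P n x).Monic := by
  apply Polynomial.monic_of_natDegree_le_of_coeff_eq_one n (P_natDegree_le n x)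
  rw [P_coeff]
  simp [B_zero]

theorem P_natDegree (n : ℕ) (x : ℝ) : (P n x).natDegree = n := by
  apply le_antisymm (P_natDegree_le n x)
  apply Polynomial.le_natDegree_of_ne_zero
  rw [P_coeff]
  simp [B_zero]

/-- `P n x` is a product of real linear factors. -/
theorem P_prod (n : ℕ) (x : ℝ) : ∃ c : Fin n → ℝ,
    P n x = ∏ i, (Polynomial.X + Polynomial.C (c i)) := by
  choose r hr1 hr2 hr3 using exists_zero n
  have hinj : Function.Injective fun i => r i - x := by
    intro i j hij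
    have h : r i = r j := by
      simp only at hij
      linarith
    have h1 : (i : ℝ) < (j : ℝ) + 1 := by linarith [hr1 i, hr2 j]
    have h2 : (j : ℝ) < (i : ℝ) + 1 := by linarith [hr1 j, hr2 i]
    have h3 : (i : ℕ) < j + 1 := by exact_mod_cast h1
    have h4 : (j : ℕ) < i + 1 := by exact_mod_cast h2
    ext
    omega
  have hP := P_monic n x
  have hroots : (Finset.univ.map ⟨_, hinj⟩).val ≤ (P n x).roots := by
    rw [Finset.val_le_iff_val_subset]
    intro z hz
    rw [Finset.mem_val, Finset.mem_map] at hz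
    obtain ⟨i, _, rfl⟩ := hz
    rw [Polynomial.mem_roots hP.ne_zero, Polynomial.IsRoot.def, P_eval]
    simp [hr3]
  have hcard : (P n x).roots.card ≤ (Finset.univ.map ⟨_, hinj⟩).val.card := by
    refine (Polynomial.card_roots' _).trans ?_
    rw [P_natDegree]
    simp
  have heq := Multiset.eq_of_le_of_card_le hroots hcard
  have hcard' : (P n x).roots.card = (P n x).natDegree := by
    rw [← heq, P_natDegree]
    simp
  have hprod := Polynomial.prod_multiset_X_sub_C_of_monic_of_roots_card_eq hP hcard'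
  refine ⟨fun i => x - r i, ?_⟩
  rw [← hprod, ← heq]
  rw [Finset.map_val, Multiset.map_map]
  change ∏ i, _ = _
  refine Finset.prod_congr rfl fun i _ => ?_
  simp
  ring

/-- The polynomials `F` for which `(-1)^k F_{2k} ≥ 0` for all `k`. -/
def Alt (F : Polynomial ℝ) : Prop := ∀ k : ℕ, 0 ≤ (-1 : ℝ) ^ k * F.coeff (2 * k)

theorem Alt.mul {F : Polynomial ℝ} (hF : Alt F) {a b : ℝ} (ha : 0 ≤ a) (hb : 0 ≤ b) :
    Alt ((Polynomial.C a - Polynomial.C b * Polynomial.X ^ 2) * F) := by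
  intro k
  rw [sub_mul, Polynomial.coeff_sub, Polynomial.coeff_C_mul, mul_assoc, Polynomial.coeff_C_mul]
  cases k with
  | zero =>
    have h : (Polynomial.X ^ 2 * F).coeff (2 * 0) = 0 := by
      rw [Polynomial.coeff_X_pow_mul']
      simp
    rw [h]
    have := hF 0
    simp at this ⊢
    positivity
  | succ k =>
    have h : (Polynomial.X ^ 2 * F).coeff (2 * (k + 1)) = F.coeff (2 * k) := by
      rw [show 2 * (k + 1) = 2 * k + 2 by ring, Polynomial.coeff_X_pow_mul]
    rw [h]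
    have h1 := mul_nonneg ha (hF (k + 1))
    have h2 := mul_nonneg hb (hF k)
    rw [pow_succ] at h1 ⊢
    nlinarith

theorem Alt.prod {ι : Type*} (s : Finset ι) (a b : ι → ℝ) (ha : ∀ i, 0 ≤ a i) (hb : ∀ i, 0 ≤ b i) :
    Alt (∏ i ∈ s, (Polynomial.C (a i) - Polynomial.C (b i) * Polynomial.X ^ 2)) := by
  classical
  induction s using Finset.induction_on with
  | empty =>
    intro k
    rw [Finset.prod_empty, Polynomial.coeff_one]
    split_ifs with h
    · have : k = 0 := by omega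
      rw [this]
      simp
    · simp
  | insert i s hi ih =>
    rw [Finset.prod_insert hi]
    exact ih.mul (ha i) (hb i)

theorem comp_neg_coeff (F : Polynomial ℝ) (j : ℕ) :
    (F.comp (-Polynomial.X)).coeff j = (-1) ^ j * F.coeff j := by
  have h : (-Polynomial.X : Polynomial ℝ) = Polynomial.C (-1) * Polynomial.X := by simp
  rw [h, Polynomial.comp_C_mul_X_coeff, mul_comm]

/-- The coefficient of `Z^{2k}` in `F(Z) F(-Z)`. -/
theorem coeff_self_mul (F : Polynomial ℝ) (k : ℕ) :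
    (F * F.comp (-Polynomial.X)).coeff (2 * k) =
      ∑ j ∈ range (2 * k + 1), (-1) ^ j * F.coeff j * F.coeff (2 * k - j) := by
  rw [Polynomial.coeff_mul, Finset.Nat.sum_antidiagonal_eq_sum_range_succ (fun i j => F.coeff i *
    (F.comp (-Polynomial.X)).coeff j)]
  refine Finset.sum_congr rfl fun j hj => ?_
  have hj' : j ≤ 2 * k := Nat.lt_succ_iff.mp (Finset.mem_range.mp hj)
  rw [comp_neg_coeff]
  have : (-1 : ℝ) ^ (2 * k - j) = (-1) ^ j := by
    have h1 : (-1 : ℝ) ^ (2 * k - j) * (-1) ^ j = 1 := by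
      rw [← pow_add, Nat.sub_add_cancel hj', pow_mul]
      simp
    have h2 : (-1 : ℝ) ^ j * (-1) ^ j = 1 := by
      rw [← mul_pow]; simp
    have h3 : (-1 : ℝ) ^ j ≠ 0 := pow_ne_zero _ (by norm_num)
    exact mul_right_cancel₀ h3 (h1.trans h2.symm)
  rw [this]
  ring

theorem reverse_X_add_C (c : ℝ) : (Polynomial.X + Polynomial.C c).reverse =
    1 + Polynomial.C c * Polynomial.X := by
  ext j
  rw [Polynomial.coeff_reverse, Polynomial.natDegree_X_add_C]
  rcases j with _ | _ | j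
  · simp
  · simp [Polynomial.coeff_one]
  · rw [Polynomial.revAt_eq_self_of_lt (by omega)]
    simp [Polynomial.coeff_X, Polynomial.coeff_one]

theorem reverse_prod {ι : Type*} (s : Finset ι) (c : ι → ℝ) :
    (∏ i ∈ s, (Polynomial.X + Polynomial.C (c i))).reverse =
      ∏ i ∈ s, (1 + Polynomial.C (c i) * Polynomial.X) := by
  classical
  induction s using Finset.induction_on with
  | empty =>
    rw [Finset.prod_empty, Finset.prod_empty, ← Polynomial.C_1, Polynomial.reverse_C]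
  | insert i s hi ih =>
    rw [Finset.prod_insert hi, Finset.prod_insert hi, Polynomial.reverse_mul_of_domain, ih,
      reverse_X_add_C]

theorem alpha_nonneg (n k : ℕ) (hk : 2 * k ≤ n) (x : ℝ) : 0 ≤ alpha n k x := by
  obtain ⟨c, hc⟩ := P_prod n x
  have h1 : P n x * (P n x).comp (-Polynomial.X) =
      ∏ i, (Polynomial.C (c i ^ 2) - Polynomial.C 1 * Polynomial.X ^ 2) := by
    rw [hc, Polynomial.prod_comp, ← Finset.prod_mul_distrib]
    refine Finset.prod_congr rfl fun i _ => ?_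
    simp only [Polynomial.add_comp, Polynomial.X_comp, Polynomial.C_comp, map_pow, map_one]
    ring
  have h2 := Alt.prod Finset.univ (fun i => c i ^ 2) (fun _ => 1) (fun i => sq_nonneg _)
    (fun _ => zero_le_one) k
  rw [← h1, coeff_self_mul] at h2
  rw [alpha]
  convert h2 using 2
  refine Finset.sum_congr rfl fun j hj => ?_
  have hj' : j ≤ 2 * k := Nat.lt_succ_iff.mp (Finset.mem_range.mp hj)
  rw [P_coeff, P_coeff, show n - (2 * k - j) = n - 2 * k + j by omega]
  ring

theorem beta_nonneg (n k : ℕ) (hk : 2 * k ≤ n) (x : ℝ) : 0 ≤ beta n k x := by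
  obtain ⟨c, hc⟩ := P_prod n x
  have h1 : (P n x).reverse * (P n x).reverse.comp (-Polynomial.X) =
      ∏ i, (Polynomial.C 1 - Polynomial.C (c i ^ 2) * Polynomial.X ^ 2) := by
    rw [hc, reverse_prod, Polynomial.prod_comp, ← Finset.prod_mul_distrib]
    refine Finset.prod_congr rfl fun i _ => ?_
    simp only [Polynomial.add_comp, Polynomial.mul_comp, Polynomial.X_comp, Polynomial.C_comp,
      map_pow, map_one, Polynomial.one_comp]
    ring
  have h2 := Alt.prod Finset.univ (fun _ => 1) (fun i => c i ^ 2) (fun _ => zero_le_one)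
    (fun i => sq_nonneg _) k
  rw [← h1, coeff_self_mul] at h2
  have h3 : ∀ j ≤ n, (P n x).reverse.coeff j = (n.choose j : ℝ) * B n j x := by
    intro j hj
    rw [Polynomial.coeff_reverse, P_natDegree, Polynomial.revAt_le hj, P_coeff, Nat.choose_symm hj,
      Nat.sub_sub_self hj]
  rw [beta]
  convert h2 using 2
  refine Finset.sum_congr rfl fun j hj => ?_
  have hj' : j ≤ 2 * k := Nat.lt_succ_iff.mp (Finset.mem_range.mp hj)
  rw [h3 j (by omega), h3 (2 * k - j) (by omega)]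
  ring

/-- **Q1 holds.** For every integer `n ≥ 1` and every real `x`, `α_{n,k}(x) ≥ 0` for all integers
`k` with `1 ≤ 2k ≤ n`, and `β_{n,k}(x) ≥ 0` for all integers `k` with `0 ≤ 2k ≤ n-1`. -/
theorem result : ∀ n : ℕ, 1 ≤ n → ∀ x : ℝ,
    (∀ k : ℕ, 1 ≤ 2 * k → 2 * k ≤ n → 0 ≤ alpha n k x) ∧
    (∀ k : ℕ, 2 * k ≤ n - 1 → 0 ≤ beta n k x) := by
  intro n hn x
  exact ⟨fun k _ hk => alpha_nonneg n k hk x, fun k hk => beta_nonneg n k (by omega) x⟩

end

end Pool.Agent.Results.MP_6eafb7_an.ConvolutionSums
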